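import Pool.Agent.helper42.NS.Spec2

set_option autoImplicit false

namespace Pool.Agent.helper42.NS

open Polynomial Matrix

theorem TAL_mulVec {R : Type} [CommRing R] {m s : ℕ} (B : Fin m → Fin s → Bool) (u : Fin s → R) (i : Fin m) :
    ((fun i j => if B i j = true then (1 : R) else 0 : Matrix (Fin m) (Fin s) R) *ᵥ u) i = dotb (B i) u := by
  unfold dotb
  show ∑ j, (if B i j = true then (1 : R) else 0) * u j = _
  refine Finset.sum_congr rfl fun j _ => ?_
  by_cases h : B i j = true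
  · rw [if_pos h, if_pos h, one_mul]
  · rw [if_neg h, if_neg h, zero_mul]

theorem TAL_primes (n s : ℕ) (A : Fin n → Fin s → Bool)
    (h2 : ¬ ∃ u : Fin s → ZMod 2, u ≠ 0 ∧ ∀ i, dotb (A i) u = 0) :
    ∃ P : Finset ℕ, P.card ≤ s ^ 2 ∧ (∀ p ∈ P, p.Prime) ∧ ∀ p : ℕ, p.Prime →
      (∃ u : Fin s → ZMod p, u ≠ 0 ∧ ∀ i, dotb (A i) u = 0) → p ∈ P := by
  classical
  have : Fact (Nat.Prime 2) := ⟨Nat.prime_two⟩
  let v : Fin n → Fin s → ZMod 2 := fun i j => if A i j = true then 1 else 0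
  obtain ⟨κ, a, ha, hsp, hli⟩ := exists_linearIndependent' (ZMod 2) v
  have htop : Submodule.span (ZMod 2) (Set.range v) = ⊤ := by
    by_contra hne
    obtain ⟨f, hf, hle⟩ := Submodule.exists_le_ker_of_lt_top _ (lt_top_iff_ne_top.mpr hne)
    apply h2
    refine ⟨fun j => f (Pi.single j 1), ?_, ?_⟩
    · intro h0
      apply hf
      refine LinearMap.pi_ext' fun j => ?_
      refine LinearMap.ext_ring ?_
      have := congrFun h0 j
      simpa using this
    · intro i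
      have h3 : v i ∈ LinearMap.ker f := hle (Submodule.subset_span ⟨i, rfl⟩)
      rw [LinearMap.mem_ker] at h3
      have h4 : v i = ∑ j, v i j • (Pi.single j (1 : ZMod 2) : Fin s → ZMod 2) := by
        funext j'
        rw [Finset.sum_apply, Finset.sum_eq_single j']
        · simp
        · intro j _ hj
          simp [Ne.symm hj]
        · intro h
          exact absurd (Finset.mem_univ _) h
      rw [h4, map_sum] at h3
      have h5 : dotb (A i) (fun j => f (Pi.single j 1)) = ∑ j, f (v i j • (Pi.single j (1 : ZMod 2) : Fin s → ZMod 2)) := by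
        unfold dotb
        refine Finset.sum_congr rfl fun j _ => ?_
        rw [map_smul]
        show (if A i j = true then f (Pi.single j 1) else 0) = (if A i j = true then (1 : ZMod 2) else 0) • f (Pi.single j 1)
        by_cases h : A i j = true
        · rw [if_pos h, if_pos h, one_smul]
        · rw [if_neg h, if_neg h, zero_smul]
      rw [h5]
      exact h3
  let b : Module.Basis κ (ZMod 2) (Fin s → ZMod 2) := Module.Basis.mk hli (by rw [hsp, htop])
  let e : κ ≃ Fin s := b.indexEquiv (Pi.basisFun (ZMod 2) (Fin s))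
  let r : Fin s → Fin n := fun i => a (e.symm i)
  let M2 : Matrix (Fin s) (Fin s) (ZMod 2) := fun i j => if A (r i) j = true then 1 else 0
  have hM2 : IsUnit M2 := by
    rw [← Matrix.linearIndependent_rows_iff_isUnit]
    have := hli.comp e.symm e.symm.injective
    exact this
  let MZ : Matrix (Fin s) (Fin s) ℤ := fun i j => if A (r i) j = true then 1 else 0
  let Mp : ∀ p : ℕ, Matrix (Fin s) (Fin s) (ZMod p) := fun p i j => if A (r i) j = true then 1 else 0
  have hmap : ∀ (p : ℕ), (MZ.det : ZMod p) = (Mp p).det := by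
    intro p
    have h3 := (Int.castRingHom (ZMod p)).map_det MZ
    rw [eq_intCast] at h3
    rw [h3]
    refine congrArg Matrix.det ?_
    ext i j
    show ((if A (r i) j = true then (1 : ℤ) else 0 : ℤ) : ZMod p) = if A (r i) j = true then (1 : ZMod p) else 0
    by_cases h : A (r i) j = true
    · rw [if_pos h, if_pos h, Int.cast_one]
    · rw [if_neg h, if_neg h, Int.cast_zero]
  have hD0 : MZ.det ≠ 0 := by
    intro h0
    have h3 := hmap 2
    rw [h0, Int.cast_zero] at h3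
    have h4 : IsUnit M2.det := (Matrix.isUnit_iff_isUnit_det _).mp hM2
    have h5 : M2.det = 0 := h3.symm
    rw [h5] at h4
    exact not_isUnit_zero h4
  have hDle : MZ.det.natAbs ≤ 2 ^ (s ^ 2) := by
    have h3 := Matrix.det_le (A := MZ) (abv := AbsoluteValue.abs) (x := (1 : ℤ)) (by
      intro i j
      show |(if A (r i) j = true then (1 : ℤ) else 0)| ≤ 1
      by_cases h : A (r i) j = true
      · rw [if_pos h, abs_one]
      · rw [if_neg h, abs_zero]
        exact zero_le_one)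
    have h4 : |MZ.det| ≤ ((s.factorial : ℕ) : ℤ) := by
      have h5 : |MZ.det| ≤ (Fintype.card (Fin s)).factorial • (1 : ℤ) ^ Fintype.card (Fin s) := h3
      rw [Fintype.card_fin, one_pow, nsmul_eq_mul, mul_one] at h5
      exact h5
    have h5 : MZ.det.natAbs ≤ s.factorial := by
      rw [Int.abs_eq_natAbs] at h4
      exact_mod_cast h4
    refine h5.trans ((Nat.factorial_le_pow s).trans ?_)
    calc s ^ s ≤ (2 ^ s) ^ s := Nat.pow_le_pow_left Nat.lt_two_pow_self.le s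
      _ = 2 ^ (s ^ 2) := by rw [← pow_mul, sq]
  refine ⟨MZ.det.natAbs.primeFactors, ?_, fun p hp => Nat.prime_of_mem_primeFactors hp, ?_⟩
  · have h3 : 2 ^ MZ.det.natAbs.primeFactors.card ≤ MZ.det.natAbs := by
      refine le_trans (Finset.pow_card_le_prod _ (fun p => p) 2 ?_)
        (Nat.le_of_dvd (Int.natAbs_pos.mpr hD0) (Nat.prod_primeFactors_dvd _))
      intro p hp
      exact (Nat.prime_of_mem_primeFactors hp).two_le
    exact (Nat.pow_le_pow_iff_right (by norm_num)).mp (h3.trans hDle)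
  · rintro p hp ⟨u, hu0, hu⟩
    have : Fact p.Prime := ⟨hp⟩
    have h3 : (MZ.det : ZMod p) = 0 := by
      rw [hmap p]
      rw [← Matrix.exists_mulVec_eq_zero_iff]
      refine ⟨u, hu0, ?_⟩
      funext i
      rw [TAL_mulVec (fun i => A (r i)) u i]
      exact hu (r i)
    rw [ZMod.intCast_zmod_eq_zero_iff_dvd] at h3
    rw [Nat.mem_primeFactors]
    exact ⟨hp, Int.natCast_dvd.mp h3, (Int.natAbs_pos.mpr hD0).ne'⟩

/-- the bad matrices -/
def TAL_Bad (s k p : ℕ) (B : Fin k → Fin s → Bool) : Prop :=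
  ∃ u : Fin s → ZMod p, u ≠ 0 ∧ ∀ i, dotb (B i) u = 0

theorem TAL_kil (h : KIL_stmt) (p : ℕ) (hp : p.Prime) (s k : ℕ) :
    Set.ncard {B : Fin k → Fin s → Bool | ∃ u : Fin s → ZMod p, u ≠ 0 ∧ ∀ i, dotb (B i) u = 0} * 2 ^ k ≤
      2 ^ s * 2 ^ (s * k) := by
  have : Fact p.Prime := ⟨hp⟩
  have h1 := h (ZMod p) s ⊤ k
  have h2 : {B : Fin k → Fin s → Bool | ∃ u ∈ (⊤ : Submodule (ZMod p) (Fin s → ZMod p)), u ≠ 0 ∧ ∀ i, dotb (B i) u = 0} =
      {B : Fin k → Fin s → Bool | ∃ u : Fin s → ZMod p, u ≠ 0 ∧ ∀ i, dotb (B i) u = 0} := by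
    ext B
    rw [Set.mem_ofPred_eq, Set.mem_ofPred_eq]
    constructor
    · rintro ⟨u, _, hu⟩
      exact ⟨u, hu⟩
    · rintro ⟨u, hu⟩
      exact ⟨u, Submodule.mem_top, hu⟩
  rw [h2, finrank_top, Module.finrank_fin_fun] at h1
  refine h1.trans ?_
  exact Nat.mul_le_mul_right _ (Nat.sub_le _ _)

theorem TAL (h : KIL_stmt) : TAL_stmt := by
  classical
  intro N s
  obtain ⟨N1, N2, hN, hN1, hN12⟩ : ∃ N1 N2 : ℕ, N = N1 + N2 ∧ N / 2 = N1 ∧ N1 ≤ N2 :=
    ⟨N / 2, N - N / 2, by omega, rfl, by omega⟩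
  rw [hN1]
  subst hN
  -- the bad sets
  have hcount : ∀ (k p : ℕ), p.Prime → (Finset.univ.filter (TAL_Bad s k p)).card * 2 ^ k ≤ 2 ^ s * 2 ^ (s * k) := by
    intro k p hp
    have h1 := TAL_kil h p hp s k
    have h2 : Set.ncard {B : Fin k → Fin s → Bool | ∃ u : Fin s → ZMod p, u ≠ 0 ∧ ∀ i, dotb (B i) u = 0} =
        (Finset.univ.filter (TAL_Bad s k p)).card := by
      rw [← Set.ncard_coe_finset]
      congr 1
      ext B
      simp [TAL_Bad]
    rw [h2] at h1
    exact h1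
  have hP : ∀ A1 : Fin N1 → Fin s → Bool, ∃ P : Finset ℕ, P.card ≤ s ^ 2 ∧ (∀ p ∈ P, p.Prime) ∧
      (¬ TAL_Bad s N1 2 A1 → ∀ p : ℕ, p.Prime → TAL_Bad s N1 p A1 → p ∈ P) := by
    intro A1
    by_cases h1 : TAL_Bad s N1 2 A1
    · exact ⟨∅, by simp, by simp, fun h2 => absurd h1 h2⟩
    · obtain ⟨P, h3, h4, h5⟩ := TAL_primes N1 s A1 h1
      exact ⟨P, h3, h4, fun _ => h5⟩
  choose P hP1 hP2 hP3 using hP
  let T0 : Finset ((Fin N1 → Fin s → Bool) × (Fin N2 → Fin s → Bool)) :=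
    (Finset.univ.filter (TAL_Bad s N1 2)) ×ˢ Finset.univ
  let T1 : Finset ((Fin N1 → Fin s → Bool) × (Fin N2 → Fin s → Bool)) :=
    Finset.univ.biUnion fun A1 => (P A1).biUnion fun p => {A1} ×ˢ (Finset.univ.filter (TAL_Bad s N2 p))
  have hsub : {A : Fin (N1 + N2) → Fin s → Bool | ∃ p : ℕ, p.Prime ∧ ∃ u : Fin s → ZMod p, u ≠ 0 ∧
      ∀ i, dotb (A i) u = 0} ⊆ ((fun z : (Fin N1 → Fin s → Bool) × (Fin N2 → Fin s → Bool) =>
        Fin.append z.1 z.2) '' ((T0 ∪ T1 : Finset _) : Set _)) := by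
    rintro A ⟨p, hp, u, hu0, hu⟩
    refine ⟨(fun i => A (Fin.castAdd N2 i), fun i => A (Fin.natAdd N1 i)), ?_, ?_⟩
    · rw [Finset.coe_union]
      by_cases h1 : TAL_Bad s N1 2 (fun i => A (Fin.castAdd N2 i))
      · left
        show _ ∈ T0
        exact Finset.mem_product.mpr ⟨Finset.mem_filter.mpr ⟨Finset.mem_univ _, h1⟩, Finset.mem_univ _⟩
      · right
        show _ ∈ T1
        refine Finset.mem_biUnion.mpr ⟨fun i => A (Fin.castAdd N2 i), Finset.mem_univ _, ?_⟩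
        refine Finset.mem_biUnion.mpr ⟨p, hP3 _ h1 p hp ⟨u, hu0, fun i => hu _⟩, ?_⟩
        exact Finset.mem_product.mpr ⟨Finset.mem_singleton_self _,
          Finset.mem_filter.mpr ⟨Finset.mem_univ _, u, hu0, fun i => hu _⟩⟩
    · funext i
      show Fin.append (fun i => A (Fin.castAdd N2 i)) (fun i => A (Fin.natAdd N1 i)) i = A i
      exact congrFun (Fin.append_castAdd_natAdd) i
  have hcard : Set.ncard {A : Fin (N1 + N2) → Fin s → Bool | ∃ p : ℕ, p.Prime ∧ ∃ u : Fin s → ZMod p, u ≠ 0 ∧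
      ∀ i, dotb (A i) u = 0} ≤ T0.card + T1.card := by
    refine (Set.ncard_le_ncard hsub (Set.toFinite _)).trans ?_
    refine (Set.ncard_image_le (Set.toFinite _)).trans ?_
    rw [Set.ncard_coe_finset]
    exact Finset.card_union_le _ _
  have hX : ∀ k : ℕ, Fintype.card (Fin k → Fin s → Bool) = 2 ^ (s * k) := by
    intro k
    rw [Fintype.card_fun, Fintype.card_fun, Fintype.card_bool, Fintype.card_fin, Fintype.card_fin, ← pow_mul]
  have hT0 : T0.card * 2 ^ N1 ≤ 2 ^ s * 2 ^ (s * N1) * 2 ^ (s * N2) := by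
    show ((Finset.univ.filter (TAL_Bad s N1 2)) ×ˢ Finset.univ).card * 2 ^ N1 ≤ _
    rw [Finset.card_product, Finset.card_univ, hX]
    calc _ = (Finset.univ.filter (TAL_Bad s N1 2)).card * 2 ^ N1 * 2 ^ (s * N2) := by ring
      _ ≤ _ := Nat.mul_le_mul_right _ (hcount N1 2 Nat.prime_two)
  have hT1 : T1.card * 2 ^ N2 ≤ 2 ^ (s * N1) * (s ^ 2 * (2 ^ s * 2 ^ (s * N2))) := by
    have h1 : T1.card ≤ ∑ A1 : Fin N1 → Fin s → Bool, ∑ p ∈ P A1, (Finset.univ.filter (TAL_Bad s N2 p)).card := by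
      refine Finset.card_biUnion_le.trans ?_
      refine Finset.sum_le_sum fun A1 _ => ?_
      refine Finset.card_biUnion_le.trans ?_
      refine Finset.sum_le_sum fun p _ => ?_
      rw [Finset.card_product, Finset.card_singleton, one_mul]
    calc T1.card * 2 ^ N2 ≤ (∑ A1 : Fin N1 → Fin s → Bool, ∑ p ∈ P A1, (Finset.univ.filter (TAL_Bad s N2 p)).card) * 2 ^ N2 :=
          Nat.mul_le_mul_right _ h1
      _ = ∑ A1 : Fin N1 → Fin s → Bool, ∑ p ∈ P A1, (Finset.univ.filter (TAL_Bad s N2 p)).card * 2 ^ N2 := by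
          rw [Finset.sum_mul]
          refine Finset.sum_congr rfl fun A1 _ => ?_
          rw [Finset.sum_mul]
      _ ≤ ∑ A1 : Fin N1 → Fin s → Bool, s ^ 2 * (2 ^ s * 2 ^ (s * N2)) := by
          refine Finset.sum_le_sum fun A1 _ => ?_
          calc _ ≤ ∑ p ∈ P A1, 2 ^ s * 2 ^ (s * N2) :=
                Finset.sum_le_sum fun p hp => hcount N2 p (hP2 A1 p hp)
            _ = (P A1).card * (2 ^ s * 2 ^ (s * N2)) := by rw [Finset.sum_const, smul_eq_mul]
            _ ≤ _ := Nat.mul_le_mul_right _ (hP1 A1)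
      _ = _ := by rw [Finset.sum_const, Finset.card_univ, hX, smul_eq_mul]
  have hpow : 2 ^ N1 ≤ 2 ^ N2 := Nat.pow_le_pow_right (by norm_num) hN12
  calc _ ≤ (T0.card + T1.card) * 2 ^ N1 := Nat.mul_le_mul_right _ hcard
    _ = T0.card * 2 ^ N1 + T1.card * 2 ^ N1 := by ring
    _ ≤ T0.card * 2 ^ N1 + T1.card * 2 ^ N2 := Nat.add_le_add_left (Nat.mul_le_mul_left _ hpow) _
    _ ≤ 2 ^ s * 2 ^ (s * N1) * 2 ^ (s * N2) + 2 ^ (s * N1) * (s ^ 2 * (2 ^ s * 2 ^ (s * N2))) :=
        Nat.add_le_add hT0 hT1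
    _ = _ := by
        rw [show (N1 + N2) * s = s * N1 + s * N2 by ring, pow_add]
        ring

end Pool.Agent.helper42.NS
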